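import Pool.Agent.helper31.WB.NDefs
import Pool.Agent.helper21.WB.LibB5

/-! PART N, module N0: measurability, invariance, probabilities of saturated sets.  helper51 -/

set_option autoImplicit false
open Matrix MeasureTheory

namespace Pool.Agent.helper21.WB.NN

theorem N0.continuous_disp {γ : GLI} (hγ : InG γ) : Continuous (fun y : X => hd y (act γ y)) :=
  continuous_hd.comp (continuous_id.prodMk (continuous_act hγ))

theorem N0.hd_le_iff {x y : X} {r : ℝ} (hr : 0 ≤ r) : hd x y ≤ r ↔ ch x y ≤ Real.cosh r := by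
  rw [← cosh_hd, Real.cosh_le_cosh, abs_of_nonneg (hd_nonneg x y), abs_of_nonneg hr]

theorem measurableSet_Th {Γ : Subgroup GLI} (hΓ : Disc Γ) (r : ℝ) : MeasurableSet (Th Γ r) := by
  have : Countable Γ := countable_of_disc hΓ
  have e : Th Γ r = ⋂ γ : Γ, {y | γ.1 ≠ 1 → r < hd y (act γ.1 y)} := by
    ext y; simp [Th]
  rw [e]
  refine MeasurableSet.iInter (fun γ => ?_)
  by_cases h : γ.1 = 1
  · have : {y : X | γ.1 ≠ 1 → r < hd y (act γ.1 y)} = Set.univ := by
      ext y; simp [h]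
    rw [this]; exact MeasurableSet.univ
  · have : {y : X | γ.1 ≠ 1 → r < hd y (act γ.1 y)} = {y : X | r < hd y (act γ.1 y)} := by
      ext y; simp [h]
    rw [this]
    exact (isOpen_lt continuous_const (N0.continuous_disp (hΓ.inG _ γ.2))).measurableSet

theorem N0.act_mem_Th_aux {Γ : Subgroup GLI} (hΓ : Disc Γ) {γ : GLI} (hγ : γ ∈ Γ) {r : ℝ} {y : X}
    (h : y ∈ Th Γ r) : act γ y ∈ Th Γ r := by
  intro δ hδ hδ1
  have hγ' := hΓ.inG _ hγ
  have hδ' := hΓ.inG _ hδ
  have h1 := h (γ⁻¹ * δ * γ) (Γ.mul_mem (Γ.mul_mem (Γ.inv_mem hγ) hδ) hγ) (by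
    intro e
    apply hδ1
    have : δ = γ * (γ⁻¹ * δ * γ) * γ⁻¹ := by group
    rw [this, e]; group)
  have e1 : act (γ⁻¹ * δ * γ) y = act γ⁻¹ (act δ (act γ y)) := by
    rw [act_mul hγ', act_mul hδ']
  rw [e1, ← hd_act hγ' y, act_act_inv hγ'] at h1
  exact h1

theorem act_mem_Th {Γ : Subgroup GLI} (hΓ : Disc Γ) {γ : GLI} (hγ : γ ∈ Γ) {r : ℝ} {y : X} :
    act γ y ∈ Th Γ r ↔ y ∈ Th Γ r := by
  refine ⟨fun h => ?_, fun h => N0.act_mem_Th_aux hΓ hγ h⟩
  have := N0.act_mem_Th_aux hΓ (Γ.inv_mem hγ) h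
  rwa [act_inv_act (hΓ.inG _ hγ)] at this

theorem Th_of_near {Γ : Subgroup GLI} (hΓ : Disc Γ) {r d : ℝ} {x y : X} (hx : x ∈ Th Γ (r + 2 * d))
    (hxy : hd x y ≤ d) : y ∈ Th Γ r := by
  intro γ hγ h1
  have h := hx γ hγ h1
  have t1 := hd_triangle x y (act γ x)
  have t2 := hd_triangle y (act γ y) (act γ x)
  have e := hd_act (hΓ.inG _ hγ) y x
  rw [hd_comm y x] at e
  linarith

theorem compl_Th {Γ : Subgroup GLI} {r : ℝ} (hr : 0 ≤ r) :
    (Th Γ r)ᶜ = thin Γ (Real.cosh r - 1) := by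
  ext y
  simp only [Th, thin, Set.mem_compl_iff, Set.mem_ofPred_eq, not_forall, not_lt]
  constructor
  · rintro ⟨γ, h, h1, h2⟩
    exact ⟨γ, h, h1, by rw [N0.hd_le_iff hr] at h2; linarith⟩
  · rintro ⟨γ, h, h1, h2⟩
    exact ⟨γ, h, h1, by rw [N0.hd_le_iff hr]; linarith⟩

theorem N0.isClosed_bl0 (x : X) (r : ℝ) : IsClosed (bl0 x r) :=
  isClosed_le (continuous_hd.comp (continuous_const.prodMk continuous_id)) continuous_const

theorem measurableSet_bl0 (x : X) (r : ℝ) : MeasurableSet (bl0 x r) := (N0.isClosed_bl0 x r).measurableSet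

theorem measurableSet_Sat {Γ : Subgroup GLI} (hΓ : Disc Γ) {A : Set X} (hA : MeasurableSet A) :
    MeasurableSet (Sat Γ A) := by
  have : Countable Γ := countable_of_disc hΓ
  have e : Sat Γ A = ⋃ γ : Γ, (act γ.1) ⁻¹' A := by
    ext y; simp [Sat]
  rw [e]
  exact MeasurableSet.iUnion (fun γ => (continuous_act (hΓ.inG _ γ.2)).measurable hA)

theorem measurableSet_Lens (x y : X) : MeasurableSet (Lens x y) := by
  have h1 : IsClosed {z : X | hd x z ≤ hd x y - 1 / 20} :=
    isClosed_le (continuous_hd.comp (continuous_const.prodMk continuous_id)) continuous_const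
  have h2 : IsClosed {z : X | hd z y ≤ hd x y - 1 / 20} :=
    isClosed_le (continuous_hd.comp (continuous_id.prodMk continuous_const)) continuous_const
  exact (h1.inter h2).measurableSet

theorem Lens_subset {x y : X} {D : ℝ} (h : hd x y ≤ D) : Lens x y ⊆ bl0 x D := by
  intro z hz
  have := hz.1
  show hd x z ≤ D
  linarith

theorem act_mem_Lens {g : GLI} (hg : InG g) {x y z : X} :
    act g z ∈ Lens (act g x) (act g y) ↔ z ∈ Lens x y := by
  simp only [Lens, Set.mem_ofPred_eq, hd_act hg]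

theorem μ_Lens_act {g : GLI} (hg : InG g) (x y : X) : μ (Lens (act g x) (act g y)) = μ (Lens x y) := by
  rw [← (measurePreserving_act hg).measure_preimage (measurableSet_Lens _ _).nullMeasurableSet]
  congr 1
  ext z
  exact act_mem_Lens hg

theorem μ_Lens_lt_top (x y : X) : μ (Lens x y) < ⊤ := by
  refine lt_of_le_of_lt (measure_mono (Lens_subset le_rfl)) ?_
  show μ {z | hd x z ≤ hd x y} < ⊤
  rw [μ_hball]
  exact ENNReal.ofReal_lt_top

theorem measurableSet_Lens3 {Γ : Subgroup GLI} (hΓ : Disc Γ) {γ : GLI} (hγ : InG γ) :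
    MeasurableSet {p : (X × X) × X | p.2 ∈ Sat Γ (Lens p.1.1 (act γ p.1.2))} := by
  have : Countable Γ := countable_of_disc hΓ
  have e : {p : (X × X) × X | p.2 ∈ Sat Γ (Lens p.1.1 (act γ p.1.2))} =
      ⋃ δ : Γ, {p : (X × X) × X | act δ.1 p.2 ∈ Lens p.1.1 (act γ p.1.2)} := by
    ext p; simp [Sat]
  rw [e]
  refine MeasurableSet.iUnion (fun δ => ?_)
  have c1 : Continuous (fun p : (X × X) × X => p.1.1) := continuous_fst.fst
  have c2 : Continuous (fun p : (X × X) × X => act γ p.1.2) := (continuous_act hγ).comp continuous_fst.snd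
  have c3 : Continuous (fun p : (X × X) × X => act δ.1 p.2) :=
    (continuous_act (hΓ.inG _ δ.2)).comp continuous_snd
  have h0 : Continuous (fun p : (X × X) × X => hd p.1.1 (act γ p.1.2) - 1 / 20) :=
    (continuous_hd.comp (c1.prodMk c2)).sub continuous_const
  have h1 : IsClosed {p : (X × X) × X | hd p.1.1 (act δ.1 p.2) ≤ hd p.1.1 (act γ p.1.2) - 1 / 20} :=
    isClosed_le (continuous_hd.comp (c1.prodMk c3)) h0
  have h2 : IsClosed {p : (X × X) × X | hd (act δ.1 p.2) (act γ p.1.2) ≤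
      hd p.1.1 (act γ p.1.2) - 1 / 20} :=
    isClosed_le (continuous_hd.comp (c3.prodMk c2)) h0
  exact (h1.inter h2).measurableSet

theorem isProb_nu {Γ : Subgroup GLI} {F : Set X} (hL : Lat Γ F) : IsProbabilityMeasure (nu F) := by
  refine ⟨?_⟩
  unfold nu
  rw [Measure.smul_apply, Measure.restrict_apply_univ, smul_eq_mul]
  exact ENNReal.inv_mul_cancel (fd_nonempty hL.toDisc hL.fd).ne' hL.fin.ne

theorem N0.nu_apply {F : Set X} {S : Set X} (hS : MeasurableSet S) :
    nu F S = (μ F)⁻¹ * μ (S ∩ F) := by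
  unfold nu
  rw [Measure.smul_apply, Measure.restrict_apply hS, smul_eq_mul]

/-- probability that some translate of a random point lies in `A` -/
theorem nu_Sat_le {Γ : Subgroup GLI} {F : Set X} (hL : Lat Γ F) {A : Set X} (hA : MeasurableSet A) :
    nu F (Sat Γ A) ≤ μ A / μ F := by
  have hS := measurableSet_Sat hL.toDisc hA
  rw [N0.nu_apply hS, ENNReal.div_eq_inv_mul]
  refine mul_le_mul' le_rfl ?_
  have h := unfold_fd hL.toDisc hL.fd (A.indicator 1) (measurable_one.indicator hA)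
  rw [lintegral_indicator_one hA] at h
  rw [h, ← Measure.restrict_apply hS, ← lintegral_indicator_one hS]
  refine lintegral_mono (fun y => ?_)
  by_cases hy : y ∈ Sat Γ A
  · obtain ⟨γ, hγ, hγA⟩ := hy
    have h1 : (Sat Γ A).indicator (1 : X → ENNReal) y ≤ 1 :=
      Set.indicator_le_self' (fun _ _ => bot_le) y
    refine le_trans h1 ?_
    have h2 := ENNReal.le_tsum (f := fun γ : Γ => A.indicator (1 : X → ENNReal) (act γ.1 y)) ⟨γ, hγ⟩
    simp only [Set.indicator_of_mem hγA, Pi.one_apply] at h2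
    exact h2
  · rw [Set.indicator_of_notMem hy]
    exact bot_le

/-- ... and for a set inside an embedded ball -/
theorem le_nu_Sat {Γ : Subgroup GLI} {F : Set X} (hL : Lat Γ F) {A : Set X} (hA : MeasurableSet A)
    {x : X} {d : ℝ} (hx : x ∈ Th Γ (2 * d)) (hsub : A ⊆ bl0 x d) :
    μ A / μ F ≤ nu F (Sat Γ A) := by
  have hS := measurableSet_Sat hL.toDisc hA
  rw [N0.nu_apply hS, ENNReal.div_eq_inv_mul]
  refine mul_le_mul' le_rfl ?_
  have h := fd_image hL.toDisc hL.fd A hA 1 (fun y hy => by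
    have hsub1 : {γ | γ ∈ Γ ∧ act γ y ∈ A} ⊆ {1} := by
      rintro γ ⟨hγ, hγA⟩
      by_contra hne
      have h1 := hx γ hγ hne
      have h2 : hd x (act γ y) ≤ d := hsub hγA
      have h3 : hd x y ≤ d := hsub hy
      have t := hd_triangle x (act γ y) (act γ x)
      rw [hd_act (hL.inG _ hγ), hd_comm y x] at t
      linarith
    calc {γ | γ ∈ Γ ∧ act γ y ∈ A}.encard ≤ ({1} : Set GLI).encard := Set.encard_le_encard hsub1
      _ = ((1 : ℕ) : ℕ∞) := by rw [Set.encard_singleton]; rfl)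
  rw [Nat.cast_one, one_mul] at h
  rw [Set.inter_comm]
  exact h

end Pool.Agent.helper21.WB.NN
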