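import Pool.Agent.helper51.WB.N0
import Pool.Agent.helper22.WB.N1

/-! PART N, module N4: expected number of edges of the relative neighbourhood graph.  helper51 -/

set_option autoImplicit false
open Matrix MeasureTheory

namespace Pool.Agent.helper21.WB.NN

namespace N4

theorem meas_lens : Measurable (fun p : X × X => μ (Lens p.1 p.2)) := by
  have c1 : Continuous (fun p : (X × X) × X => p.1.1) := continuous_fst.fst
  have c2 : Continuous (fun p : (X × X) × X => p.1.2) := continuous_fst.snd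
  have c3 : Continuous (fun p : (X × X) × X => p.2) := continuous_snd
  have h0 : Continuous (fun p : (X × X) × X => hd p.1.1 p.1.2 - 1 / 20) :=
    (continuous_hd.comp (c1.prodMk c2)).sub continuous_const
  have h1 : IsClosed {p : (X × X) × X | hd p.1.1 p.2 ≤ hd p.1.1 p.1.2 - 1 / 20} :=
    isClosed_le (continuous_hd.comp (c1.prodMk c3)) h0
  have h2 : IsClosed {p : (X × X) × X | hd p.2 p.1.2 ≤ hd p.1.1 p.1.2 - 1 / 20} :=
    isClosed_le (continuous_hd.comp (c3.prodMk c2)) h0
  exact measurable_measure_prodMk_left (h1.inter h2).measurableSet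

/-- survival probability bound -/
noncomputable def ee (F : Set X) (M : ℕ) (x z : X) : ENNReal :=
  ENNReal.ofReal (Real.exp (-(M / (μ F).toReal * (μ (Lens x z)).toReal)))

theorem meas_ee (F : Set X) (M : ℕ) : Measurable (Function.uncurry (ee F M)) := by
  have h : Measurable (fun p : X × X =>
      ENNReal.ofReal (Real.exp (-(M / (μ F).toReal * (μ (Lens p.1 p.2)).toReal)))) :=
    ((meas_lens.ennreal_toReal.const_mul _).neg.exp).ennreal_ofReal
  exact h

theorem ee_act (F : Set X) (M : ℕ) {g : GLI} (hg : InG g) (x z : X) :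
    ee F M (act g x) (act g z) = ee F M x z := by
  unfold ee; rw [μ_Lens_act hg]

/-- the ball set -/
def Bset (D : ℝ) : Set (X × X) := {p | hd p.1 p.2 ≤ D}

theorem meas_Bset (D : ℝ) : MeasurableSet (Bset D) :=
  (isClosed_le continuous_hd continuous_const).measurableSet

/-- the kernel -/
noncomputable def HH (Γ : Subgroup GLI) (F : Set X) (D : ℝ) (M : ℕ) (p : X × X) : ENNReal :=
  (Bset D).indicator 1 p * ((Th Γ (12 * D)).indicator 1 p.1 * Function.uncurry (ee F M) p +
    (Th Γ (12 * D))ᶜ.indicator 1 p.1)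

theorem meas_HH {Γ : Subgroup GLI} (hΓ : Disc Γ) (F : Set X) (D : ℝ) (M : ℕ) :
    Measurable (HH Γ F D M) := by
  unfold HH
  have hT := measurableSet_Th hΓ (12 * D)
  refine (measurable_one.indicator (meas_Bset D)).mul (Measurable.add (Measurable.mul ?_ (meas_ee F M)) ?_)
  · exact (measurable_one.indicator hT).comp measurable_fst
  · exact (measurable_one.indicator hT.compl).comp measurable_fst

theorem int_ee {F : Set X} {D : ℝ} (M : ℕ) {g : GLI} (hg : InG g) :
    ∫⁻ y in bl0 (act g 0) D, ee F M (act g 0) y ∂μ = ∫⁻ y in bl0 0 D, ee F M 0 y ∂μ := by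
  have hme : Measurable (ee F M (act g 0)) := (meas_ee F M).of_uncurry_left
  rw [← lintegral_indicator (measurableSet_bl0 _ D), ← lintegral_indicator (measurableSet_bl0 0 D),
    ← (measurePreserving_act hg).lintegral_comp (hme.indicator (measurableSet_bl0 _ D))]
  refine lintegral_congr (fun y => ?_)
  have e3 : hd (act g 0) (act g y) = hd 0 y := hd_act hg 0 y
  by_cases hy : hd 0 y ≤ D
  · have h1 : act g y ∈ bl0 (act g 0) D := by
      show hd (act g 0) (act g y) ≤ D
      rw [e3]; exact hy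
    have h2 : y ∈ bl0 0 D := hy
    rw [Set.indicator_of_mem h1, Set.indicator_of_mem h2, ee_act F M hg]
  · have h1 : act g y ∉ bl0 (act g 0) D := by
      intro h
      apply hy
      rw [← e3]; exact h
    have h2 : y ∉ bl0 0 D := hy
    rw [Set.indicator_of_notMem h1, Set.indicator_of_notMem h2]

/-- integral of the kernel over the second variable -/
theorem int_HH {Γ : Subgroup GLI} {F : Set X} {D : ℝ} (M : ℕ) {I₀ : ℝ}
    (hI : ∫⁻ y in bl0 0 D, ENNReal.ofReal (Real.exp (-(M / (μ F).toReal * (μ (Lens 0 y)).toReal))) ∂μ ≤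
      ENNReal.ofReal I₀) (x : X) :
    ∫⁻ y, HH Γ F D M (x, y) ∂μ ≤
      ENNReal.ofReal I₀ + (Th Γ (12 * D))ᶜ.indicator 1 x * ENNReal.ofReal (vb D) := by
  have hB : MeasurableSet (bl0 x D) := measurableSet_bl0 x D
  by_cases hx : x ∈ Th Γ (12 * D)
  · have e1 : ∀ y, HH Γ F D M (x, y) = (bl0 x D).indicator (fun y => ee F M x y) y := by
      intro y
      unfold HH
      have h1 : (Th Γ (12 * D))ᶜ.indicator (1 : X → ENNReal) x = 0 := by
        refine Set.indicator_of_notMem ?_ _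
        intro h
        exact h hx
      by_cases hy : y ∈ bl0 x D
      · have h3 : (x, y) ∈ Bset D := hy
        rw [Set.indicator_of_mem h3, Set.indicator_of_mem hy, h1, Set.indicator_of_mem hx]
        simp
      · have h3 : (x, y) ∉ Bset D := hy
        rw [Set.indicator_of_notMem h3, Set.indicator_of_notMem hy, zero_mul]
    rw [lintegral_congr e1, lintegral_indicator hB]
    obtain ⟨g, hg, hgx⟩ := exists_bst x
    subst hgx
    rw [int_ee M hg]
    exact le_trans hI (le_add_of_nonneg_right bot_le)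
  · have e1 : ∀ y, HH Γ F D M (x, y) = (bl0 x D).indicator 1 y := by
      intro y
      unfold HH
      have hx' : x ∈ (Th Γ (12 * D))ᶜ := hx
      by_cases hy : y ∈ bl0 x D
      · have h3 : (x, y) ∈ Bset D := hy
        rw [Set.indicator_of_mem h3, Set.indicator_of_mem hy, Set.indicator_of_mem hx',
          Set.indicator_of_notMem hx]
        simp
      · have h3 : (x, y) ∉ Bset D := hy
        rw [Set.indicator_of_notMem h3, Set.indicator_of_notMem hy, zero_mul]
    have hx' : x ∈ (Th Γ (12 * D))ᶜ := hx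
    rw [lintegral_congr e1, lintegral_indicator_one hB, Set.indicator_of_mem hx']
    have : μ (bl0 x D) = ENNReal.ofReal (vb D) := μ_hball x D
    rw [this, Pi.one_apply, one_mul]
    exact le_add_of_nonneg_left bot_le

theorem compl_prob_le {Γ : Subgroup GLI} {F : Set X} (hL : Lat Γ F) {D : ℝ} (hD : 0 ≤ D) (M : ℕ)
    {x z : X} (hx : x ∈ Th Γ (12 * D)) (hz : hd x z ≤ D) :
    (nu F (Sat Γ (Lens x z))ᶜ) ^ M ≤ ee F M x z := by
  have := isProb_nu hL
  have hx2 : x ∈ Th Γ (2 * D) := by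
    intro δ hδ h1
    have := hx δ hδ h1
    linarith
  have h1 := le_nu_Sat hL (measurableSet_Lens x z) hx2 (Lens_subset hz)
  have hv : 0 < (μ F).toReal :=
    ENNReal.toReal_pos (fd_nonempty hL.toDisc hL.fd).ne' hL.fin.ne
  have hp : μ (Lens x z) / μ F = ENNReal.ofReal ((μ (Lens x z)).toReal / (μ F).toReal) := by
    rw [ENNReal.ofReal_div_of_pos hv, ENNReal.ofReal_toReal (μ_Lens_lt_top x z).ne,
      ENNReal.ofReal_toReal hL.fin.ne]
  rw [hp] at h1
  set p : ℝ := (μ (Lens x z)).toReal / (μ F).toReal with hpdef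
  have hp0 : 0 ≤ p := by positivity
  have h2 : nu F (Sat Γ (Lens x z))ᶜ ≤ ENNReal.ofReal (Real.exp (-p)) := by
    rw [prob_compl_eq_one_sub (measurableSet_Sat hL.toDisc (measurableSet_Lens x z))]
    calc 1 - nu F (Sat Γ (Lens x z)) ≤ 1 - ENNReal.ofReal p := tsub_le_tsub_left h1 1
      _ = ENNReal.ofReal (1 - p) := by rw [ENNReal.ofReal_sub _ hp0, ENNReal.ofReal_one]
      _ ≤ ENNReal.ofReal (Real.exp (-p)) := by
        apply ENNReal.ofReal_le_ofReal
        have := Real.add_one_le_exp (-p)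
        linarith
  calc (nu F (Sat Γ (Lens x z))ᶜ) ^ M ≤ (ENNReal.ofReal (Real.exp (-p))) ^ M := pow_le_pow_left' h2 M
    _ = ee F M x z := by
      rw [← ENNReal.ofReal_pow (Real.exp_pos _).le, ← Real.exp_nat_mul]
      unfold ee
      congr 2
      rw [hpdef]; ring

/-- the event of one edge -/
def Eab (Γ : Subgroup GLI) (D : ℝ) {N : ℕ} (a b : Fin N) (γ : GLI) : Set (Fin N → X) :=
  {x | hd (x a) (act γ (x b)) ≤ D ∧ (x a ∈ Th Γ (12 * D) → ∀ c, c ≠ a → c ≠ b →
      x c ∉ Sat Γ (Lens (x a) (act γ (x b))))}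

theorem meas_pair {γ : GLI} (hγ : InG γ) : Measurable (fun p : X × X => (p.1, act γ p.2)) :=
  (continuous_fst.prodMk ((continuous_act hγ).comp continuous_snd)).measurable

theorem meas_Eab {Γ : Subgroup GLI} (hΓ : Disc Γ) (D : ℝ) {N : ℕ} (a b : Fin N) {γ : GLI}
    (hγ : γ ∈ Γ) : MeasurableSet (Eab Γ D a b γ) := by
  have hγ' := hΓ.inG _ hγ
  have hT := measurableSet_Th hΓ (12 * D)
  have e : Eab Γ D a b γ = (fun x : Fin N → X => (x a, act γ (x b))) ⁻¹' (Bset D) ∩
      (((fun x : Fin N → X => x a) ⁻¹' (Th Γ (12 * D)))ᶜ ∪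
        ⋂ c : Fin N, {x | c ≠ a → c ≠ b → x c ∉ Sat Γ (Lens (x a) (act γ (x b)))}) := by
    ext x
    simp only [Eab, Bset, Set.mem_ofPred_eq, Set.mem_inter_iff, Set.mem_preimage, Set.mem_union,
      Set.mem_compl_iff, Set.mem_iInter]
    rw [imp_iff_not_or]
  rw [e]
  have m1 : Measurable (fun x : Fin N → X => (x a, x b)) :=
    (measurable_pi_apply a).prodMk (measurable_pi_apply b)
  have m2 : Measurable (fun x : Fin N → X => (x a, act γ (x b))) := (meas_pair hγ').comp m1
  refine (m2 (meas_Bset D)).inter (MeasurableSet.union ((measurable_pi_apply a hT).compl) ?_)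
  refine MeasurableSet.iInter (fun c => ?_)
  by_cases h1 : c = a
  · have : {x : Fin N → X | c ≠ a → c ≠ b → x c ∉ Sat Γ (Lens (x a) (act γ (x b)))} = Set.univ := by
      ext x; simp [h1]
    rw [this]; exact MeasurableSet.univ
  by_cases h2 : c = b
  · have : {x : Fin N → X | c ≠ a → c ≠ b → x c ∉ Sat Γ (Lens (x a) (act γ (x b)))} = Set.univ := by
      ext x; simp [h2]
    rw [this]; exact MeasurableSet.univ
  have : {x : Fin N → X | c ≠ a → c ≠ b → x c ∉ Sat Γ (Lens (x a) (act γ (x b)))} =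
      (fun x : Fin N → X => ((x a, x b), x c)) ⁻¹'
        {p : (X × X) × X | p.2 ∈ Sat Γ (Lens p.1.1 (act γ p.1.2))}ᶜ := by
    ext x
    simp only [Set.mem_ofPred_eq, Set.mem_preimage, Set.mem_compl_iff]
    exact ⟨fun h => h h1 h2, fun h _ _ => h⟩
  rw [this]
  exact (m1.prodMk (measurable_pi_apply c)) (measurableSet_Lens3 hΓ hγ').compl

theorem term_le {Γ : Subgroup GLI} {F : Set X} (hL : Lat Γ F) {D : ℝ} (hD : 0 ≤ D) (M : ℕ)
    {a b : Fin (M + 2)} (hab : a ≠ b) {γ : GLI} (hγ : γ ∈ Γ) :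
    PN F (M + 2) (Eab Γ D a b γ) ≤
      ∫⁻ p, HH Γ F D M (p.1, act γ p.2) ∂((nu F).prod (nu F)) := by
  have hprob := isProb_nu hL
  have hγ' := hL.inG _ hγ
  have hT := measurableSet_Th hL.toDisc (12 * D)
  set g0 : X × X → ENNReal := fun p => (Bset D).indicator 1 (p.1, act γ p.2) with hg0
  set g1 : X × X → ENNReal := fun p => g0 p * (Th Γ (12 * D)).indicator 1 p.1 with hg1
  set g2 : X × X → ENNReal := fun p => g0 p * (Th Γ (12 * D))ᶜ.indicator 1 p.1 with hg2
  have mg0 : Measurable g0 := (measurable_one.indicator (meas_Bset D)).comp (meas_pair hγ')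
  have mg1 : Measurable g1 := mg0.mul ((measurable_one.indicator hT).comp measurable_fst)
  have mg2 : Measurable g2 := mg0.mul ((measurable_one.indicator hT.compl).comp measurable_fst)
  set A1 : X × X → Set X := fun p => Sat Γ (Lens p.1 (act γ p.2)) with hA1
  set A2 : X × X → Set X := fun p => ∅ with hA2
  have l1 := lint_pair (nu F) M a b hab g1 mg1 A1 (measurableSet_Lens3 hL.toDisc hγ')
  have l2 := lint_pair (nu F) M a b hab g2 mg2 A2 (by
    have : {p : (X × X) × X | p.2 ∈ A2 p.1} = ∅ := by ext p; simp [hA2]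
    rw [this]; exact MeasurableSet.empty)
  have hE := meas_Eab hL.toDisc D a b hγ
  have step : PN F (M + 2) (Eab Γ D a b γ) ≤
      (∫⁻ x, g1 (x a, x b) * {x : Fin (M + 2) → X | ∀ c, c ≠ a → c ≠ b →
        x c ∉ A1 (x a, x b)}.indicator 1 x ∂(Measure.pi fun _ => nu F)) +
      (∫⁻ x, g2 (x a, x b) * {x : Fin (M + 2) → X | ∀ c, c ≠ a → c ≠ b →
        x c ∉ A2 (x a, x b)}.indicator 1 x ∂(Measure.pi fun _ => nu F)) := by
    have m2 : Measurable (fun x : Fin (M + 2) → X => g2 (x a, x b) *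
        {x : Fin (M + 2) → X | ∀ c, c ≠ a → c ≠ b → x c ∉ A2 (x a, x b)}.indicator 1 x) := by
      have : {x : Fin (M + 2) → X | ∀ c, c ≠ a → c ≠ b → x c ∉ A2 (x a, x b)} = Set.univ := by
        ext x; simp [hA2]
      rw [this]
      refine (mg2.comp ((measurable_pi_apply a).prodMk (measurable_pi_apply b))).mul ?_
      exact measurable_one.indicator MeasurableSet.univ
    rw [← lintegral_add_right _ m2, ← lintegral_indicator_one hE]
    unfold PN
    refine lintegral_mono (fun x => ?_)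
    by_cases hx : x ∈ Eab Γ D a b γ
    · rw [Set.indicator_of_mem hx, Pi.one_apply]
      have hb : (x a, act γ (x b)) ∈ Bset D := hx.1
      have h0 : g0 (x a, x b) = 1 := by
        rw [hg0]; exact Set.indicator_of_mem hb _
      by_cases ht : x a ∈ Th Γ (12 * D)
      · have h3 : x ∈ {x : Fin (M + 2) → X | ∀ c, c ≠ a → c ≠ b → x c ∉ A1 (x a, x b)} := hx.2 ht
        have h4 : g1 (x a, x b) = 1 := by
          show g0 (x a, x b) * (Th Γ (12 * D)).indicator 1 (x a) = 1
          rw [h0, Set.indicator_of_mem ht, Pi.one_apply, one_mul]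
        rw [Set.indicator_of_mem h3, h4, Pi.one_apply, one_mul]
        exact le_add_of_nonneg_right bot_le
      · have h3 : x ∈ {x : Fin (M + 2) → X | ∀ c, c ≠ a → c ≠ b → x c ∉ A2 (x a, x b)} := by
          intro c _ _ h; exact h
        have ht' : x a ∈ (Th Γ (12 * D))ᶜ := ht
        have h4 : g2 (x a, x b) = 1 := by
          show g0 (x a, x b) * (Th Γ (12 * D))ᶜ.indicator 1 (x a) = 1
          rw [h0, Set.indicator_of_mem ht', Pi.one_apply, one_mul]
        rw [Set.indicator_of_mem h3, h4, Pi.one_apply, one_mul]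
        exact le_add_of_nonneg_left bot_le
    · rw [Set.indicator_of_notMem hx]
      exact bot_le
  refine step.trans ?_
  rw [l1, l2]
  have m3 : Measurable (fun p : X × X => g2 p * (nu F (A2 p)ᶜ) ^ M) := by
    simp only [hA2]
    exact mg2.mul measurable_const
  rw [← lintegral_add_right _ m3]
  refine lintegral_mono (fun p => ?_)
  show g1 p * (nu F (A1 p)ᶜ) ^ M + g2 p * (nu F (A2 p)ᶜ) ^ M ≤ HH Γ F D M (p.1, act γ p.2)
  have h2 : (nu F (A2 p)ᶜ) ^ M = 1 := by
    simp only [hA2, Set.compl_empty, measure_univ, one_pow]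
  rw [h2, mul_one]
  show g0 p * (Th Γ (12 * D)).indicator 1 p.1 * (nu F (A1 p)ᶜ) ^ M +
    g0 p * (Th Γ (12 * D))ᶜ.indicator 1 p.1 ≤
    g0 p * ((Th Γ (12 * D)).indicator 1 p.1 * ee F M p.1 (act γ p.2) +
    (Th Γ (12 * D))ᶜ.indicator 1 p.1)
  rw [mul_add, mul_assoc]
  refine add_le_add ?_ le_rfl
  by_cases hb : (p.1, act γ p.2) ∈ Bset D
  · by_cases ht : p.1 ∈ Th Γ (12 * D)
    · exact mul_le_mul' le_rfl (mul_le_mul' le_rfl (compl_prob_le hL hD M ht hb))
    · rw [Set.indicator_of_notMem ht, zero_mul, mul_zero]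
      exact bot_le
  · have : g0 p = 0 := Set.indicator_of_notMem hb _
    rw [this, zero_mul]
    exact bot_le

theorem lint_nu (F : Set X) (f : X → ENNReal) : ∫⁻ y, f y ∂(nu F) = (μ F)⁻¹ * ∫⁻ y in F, f y ∂μ := by
  unfold nu
  rw [lintegral_smul_measure, smul_eq_mul]

theorem sum_HH {Γ : Subgroup GLI} {F : Set X} (hL : Lat Γ F) {D : ℝ} (M : ℕ) {I₀ ε : ℝ}
    (hI : ∫⁻ y in bl0 0 D, ENNReal.ofReal (Real.exp (-(M / (μ F).toReal * (μ (Lens 0 y)).toReal))) ∂μ ≤
      ENNReal.ofReal I₀)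
    (hthin : μ (F \ Th Γ (12 * D)) ≤ ENNReal.ofReal ε * μ F) :
    ∑' γ : Γ, ∫⁻ p, HH Γ F D M (p.1, act γ.1 p.2) ∂((nu F).prod (nu F)) ≤
      (μ F)⁻¹ * (ENNReal.ofReal I₀ + ENNReal.ofReal ε * ENNReal.ofReal (vb D)) := by
  have hprob := isProb_nu hL
  have hcount : Countable Γ := countable_of_disc hL.toDisc
  have hT := measurableSet_Th hL.toDisc (12 * D)
  have hv0 : μ F ≠ 0 := (fd_nonempty hL.toDisc hL.fd).ne'
  have mH : ∀ γ : Γ, Measurable (fun p : X × X => HH Γ F D M (p.1, act γ.1 p.2)) := fun γ =>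
    (meas_HH hL.toDisc F D M).comp (meas_pair (hL.inG _ γ.2))
  have e1 : ∀ γ : Γ, ∫⁻ p, HH Γ F D M (p.1, act γ.1 p.2) ∂((nu F).prod (nu F)) =
      ∫⁻ x, ∫⁻ y, HH Γ F D M (x, act γ.1 y) ∂(nu F) ∂(nu F) := fun γ =>
    lintegral_prod _ (mH γ).aemeasurable
  have e2 : ∑' γ : Γ, ∫⁻ p, HH Γ F D M (p.1, act γ.1 p.2) ∂((nu F).prod (nu F)) =
      ∫⁻ x, (μ F)⁻¹ * ∫⁻ y, HH Γ F D M (x, y) ∂μ ∂(nu F) := by
    rw [tsum_congr e1, ← lintegral_tsum (fun γ => (mH γ).lintegral_prod_right'.aemeasurable)]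
    refine lintegral_congr (fun x => ?_)
    have mpx : Measurable (fun y : X => (x, y)) := measurable_prodMk_left
    have mx : Measurable (fun y => HH Γ F D M (x, y)) := by
      have h := (meas_HH hL.toDisc F D M).comp mpx
      exact h
    have mxγ : ∀ γ : Γ, Measurable (fun y => HH Γ F D M (x, act γ.1 y)) := by
      intro γ
      have h := (mH γ).comp mpx
      exact h
    rw [← lintegral_tsum (fun γ => (mxγ γ).aemeasurable), lint_nu,
      unfold_fd hL.toDisc hL.fd _ mx]
  rw [e2]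
  calc ∫⁻ x, (μ F)⁻¹ * ∫⁻ y, HH Γ F D M (x, y) ∂μ ∂(nu F) ≤
      ∫⁻ x, (μ F)⁻¹ * (ENNReal.ofReal I₀ + (Th Γ (12 * D))ᶜ.indicator 1 x *
        ENNReal.ofReal (vb D)) ∂(nu F) :=
        lintegral_mono (fun x => mul_le_mul' le_rfl (int_HH M hI x))
    _ = (μ F)⁻¹ * (ENNReal.ofReal I₀ + nu F (Th Γ (12 * D))ᶜ * ENNReal.ofReal (vb D)) := by
        have m1 : Measurable ((Th Γ (12 * D))ᶜ.indicator (1 : X → ENNReal)) :=
          measurable_one.indicator hT.compl
        have m2 : Measurable (fun x : X => (Th Γ (12 * D))ᶜ.indicator (1 : X → ENNReal) x *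
            ENNReal.ofReal (vb D)) := m1.mul measurable_const
        have m3 : Measurable (fun x : X => ENNReal.ofReal I₀ +
            (Th Γ (12 * D))ᶜ.indicator (1 : X → ENNReal) x * ENNReal.ofReal (vb D)) :=
          measurable_const.add m2
        rw [lintegral_const_mul _ m3, lintegral_add_left measurable_const, lintegral_const,
          measure_univ, mul_one, lintegral_mul_const _ m1, lintegral_indicator_one hT.compl]
    _ ≤ _ := by
        refine mul_le_mul' le_rfl (add_le_add le_rfl (mul_le_mul' ?_ le_rfl))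
        rw [N0.nu_apply hT.compl]
        have : (Th Γ (12 * D))ᶜ ∩ F = F \ Th Γ (12 * D) := by
          ext y; simp [and_comm]
        rw [this]
        calc (μ F)⁻¹ * μ (F \ Th Γ (12 * D)) ≤ (μ F)⁻¹ * (ENNReal.ofReal ε * μ F) :=
              mul_le_mul' le_rfl hthin
          _ = ENNReal.ofReal ε * ((μ F)⁻¹ * μ F) := by ring
          _ = ENNReal.ofReal ε := by rw [ENNReal.inv_mul_cancel hv0 hL.fin.ne, mul_one]

theorem encard_eq (Γ : Subgroup GLI) (D : ℝ) {N : ℕ} (x : Fin N → X) :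
    ((Q Γ D x).encard : ENNReal) = ∑ a : Fin N, ∑ b : Fin N, ∑' γ : Γ,
      (if a < b then (Eab Γ D a b γ.1).indicator 1 x else 0) := by
  set S : Set (Fin N × Fin N × Γ) := {e | e.1 < e.2.1 ∧ x ∈ Eab Γ D e.1 e.2.1 e.2.2.1} with hS
  have hinj : Function.Injective (fun e : Fin N × Fin N × Γ => (e.1, e.2.1, e.2.2.1)) := by
    rintro ⟨a, b, γ⟩ ⟨a', b', γ'⟩ h
    simp only [Prod.mk.injEq] at h
    obtain ⟨h1, h2, h3⟩ := h
    subst h1; subst h2
    have : γ = γ' := Subtype.ext h3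
    rw [this]
  have hQ : Q Γ D x = (fun e : Fin N × Fin N × Γ => (e.1, e.2.1, e.2.2.1)) '' S := by
    ext ⟨a, b, γ⟩
    constructor
    · rintro ⟨h1, h2, h3, h4⟩
      exact ⟨(a, b, ⟨γ, h2⟩), ⟨h1, h3, h4⟩, rfl⟩
    · rintro ⟨⟨a', b', γ'⟩, ⟨h1, h3, h4⟩, h5⟩
      simp only [Prod.mk.injEq] at h5
      obtain ⟨e1, e2, e3⟩ := h5
      subst e1; subst e2; subst e3
      exact ⟨h1, γ'.2, h3, h4⟩
  rw [hQ, hinj.encard_image, ← ENNReal.tsum_set_one, tsum_subtype S (fun _ => (1 : ENNReal)),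
    ENNReal.tsum_prod', tsum_fintype]
  refine Finset.sum_congr rfl (fun a _ => ?_)
  rw [ENNReal.tsum_prod', tsum_fintype]
  refine Finset.sum_congr rfl (fun b _ => ?_)
  refine tsum_congr (fun γ => ?_)
  by_cases h : a < b
  · rw [if_pos h]
    by_cases hx : x ∈ Eab Γ D a b γ.1
    · have : (a, b, γ) ∈ S := ⟨h, hx⟩
      rw [Set.indicator_of_mem this, Set.indicator_of_mem hx]; rfl
    · have : (a, b, γ) ∉ S := fun h' => hx h'.2
      rw [Set.indicator_of_notMem this, Set.indicator_of_notMem hx]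
  · rw [if_neg h]
    have : (a, b, γ) ∉ S := fun h' => h h'.1
    rw [Set.indicator_of_notMem this]

theorem sum_lt (n : ℕ) (c : ENNReal) :
    ∑ a : Fin n, ∑ b : Fin n, (if a < b then c else 0) = ENNReal.ofReal (n * (n - 1) / 2) * c := by
  rw [Finset.sum_comm]
  have h1 : ∀ b : Fin n, ∑ a : Fin n, (if a < b then c else 0) = (b.val : ENNReal) * c := by
    intro b
    rw [← Finset.sum_filter, Finset.sum_const, nsmul_eq_mul]
    congr 2
    have : (Finset.univ.filter (fun a : Fin n => a < b)) = Finset.Iio b := by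
      ext a; simp
    rw [this, Fin.card_Iio]
  rw [Finset.sum_congr rfl (fun b _ => h1 b), ← Finset.sum_mul]
  congr 1
  rw [← Nat.cast_sum, Fin.sum_univ_eq_sum_range (fun i => i) n]
  have h2 := Finset.sum_range_id_mul_two n
  have h3 : ((∑ i ∈ Finset.range n, i : ℕ) : ℝ) = n * (n - 1) / 2 := by
    have h4 : ((∑ i ∈ Finset.range n, i : ℕ) : ℝ) * 2 = n * ((n - 1 : ℕ) : ℝ) := by exact_mod_cast h2
    rcases n with _ | n
    · simp
    · rw [Nat.cast_sub (by omega)] at h4
      push_cast at h4 ⊢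
      linarith
  rw [← h3, ENNReal.ofReal_natCast]

theorem meas_ind {Γ : Subgroup GLI} (hΓ : Disc Γ) (D : ℝ) {N : ℕ} (a b : Fin N) (γ : Γ) :
    Measurable (fun x : Fin N → X => (if a < b then (Eab Γ D a b γ.1).indicator 1 x else (0 : ENNReal))) := by
  by_cases h : a < b
  · simp only [h, if_true]
    exact measurable_one.indicator (meas_Eab hΓ D a b γ.2)
  · simp only [h, if_false]
    exact measurable_const

end N4

/-- [N4] the expected number of edges of the relative neighbourhood graph of random points -/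
theorem lint_Q {Γ : Subgroup GLI} {F : Set X} (hL : Lat Γ F) {D : ℝ} (hD : 1 ≤ D) (M : ℕ) {I₀ ε : ℝ}
    (hI₀ : 0 ≤ I₀) (hε : 0 ≤ ε)
    (hI : ∫⁻ y in bl0 0 D, ENNReal.ofReal (Real.exp (-(M / (μ F).toReal * (μ (Lens 0 y)).toReal))) ∂μ ≤
      ENNReal.ofReal I₀)
    (hthin : μ (F \ Th Γ (12 * D)) ≤ ENNReal.ofReal ε * μ F) :
    Measurable (fun x : Fin (M + 2) → X => ((Q Γ D x).encard : ENNReal)) ∧
    ∫⁻ x, ((Q Γ D x).encard : ENNReal) ∂(PN F (M + 2)) ≤
      ENNReal.ofReal ((M + 2) * (M + 1) / 2 / (μ F).toReal * (I₀ + ε * vb D)) := by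
  have hcount : Countable Γ := countable_of_disc hL.toDisc
  have hm := N4.meas_ind hL.toDisc D (N := M + 2)
  have hm2 : ∀ a b : Fin (M + 2), Measurable (fun x : Fin (M + 2) → X =>
      ∑' γ : Γ, (if a < b then (N4.Eab Γ D a b γ.1).indicator 1 x else (0 : ENNReal))) :=
    fun a b => Measurable.ennreal_tsum (fun γ => hm a b γ)
  have hm3 : ∀ a : Fin (M + 2), Measurable (fun x : Fin (M + 2) → X => ∑ b : Fin (M + 2),
      ∑' γ : Γ, (if a < b then (N4.Eab Γ D a b γ.1).indicator 1 x else (0 : ENNReal))) :=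
    fun a => Finset.measurable_sum _ (fun b _ => hm2 a b)
  have he : (fun x : Fin (M + 2) → X => ((Q Γ D x).encard : ENNReal)) = fun x =>
      ∑ a : Fin (M + 2), ∑ b : Fin (M + 2), ∑' γ : Γ,
      (if a < b then (N4.Eab Γ D a b γ.1).indicator 1 x else 0) := by
    funext x; exact N4.encard_eq Γ D x
  refine ⟨?_, ?_⟩
  · rw [he]
    exact Finset.measurable_sum _ (fun a _ => hm3 a)
  · rw [he, lintegral_finsetSum _ (fun a _ => hm3 a)]
    have hsum := N4.sum_HH hL M hI hthin
    set c : ENNReal := (μ F)⁻¹ * (ENNReal.ofReal I₀ + ENNReal.ofReal ε * ENNReal.ofReal (vb D)) with hc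
    have hterm : ∀ a b : Fin (M + 2), ∫⁻ x, ∑' γ : Γ,
        (if a < b then (N4.Eab Γ D a b γ.1).indicator 1 x else 0) ∂(PN F (M + 2)) ≤
        if a < b then c else 0 := by
      intro a b
      rw [lintegral_tsum (fun γ => (hm a b γ).aemeasurable)]
      by_cases h : a < b
      · simp only [h, if_true]
        refine le_trans (ENNReal.tsum_le_tsum (fun γ => ?_)) hsum
        rw [lintegral_indicator_one (N4.meas_Eab hL.toDisc D a b γ.2)]
        exact N4.term_le hL (by linarith) M h.ne γ.2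
      · simp only [h, if_false, lintegral_zero, tsum_zero]
        exact le_rfl
    calc ∑ a : Fin (M + 2), ∫⁻ x, ∑ b : Fin (M + 2), ∑' γ : Γ,
          (if a < b then (N4.Eab Γ D a b γ.1).indicator 1 x else 0) ∂(PN F (M + 2))
        = ∑ a : Fin (M + 2), ∑ b : Fin (M + 2), ∫⁻ x, ∑' γ : Γ,
          (if a < b then (N4.Eab Γ D a b γ.1).indicator 1 x else 0) ∂(PN F (M + 2)) :=
          Finset.sum_congr rfl (fun a _ => lintegral_finsetSum _ (fun b _ => hm2 a b))
      _ ≤ ∑ a : Fin (M + 2), ∑ b : Fin (M + 2), (if a < b then c else 0) :=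
          Finset.sum_le_sum (fun a _ => Finset.sum_le_sum (fun b _ => hterm a b))
      _ = ENNReal.ofReal (((M + 2 : ℕ) : ℝ) * (((M + 2 : ℕ) : ℝ) - 1) / 2) * c := N4.sum_lt _ _
      _ = _ := by
          have hv : 0 < (μ F).toReal :=
            ENNReal.toReal_pos (fd_nonempty hL.toDisc hL.fd).ne' hL.fin.ne
          have hvb : 0 ≤ vb D := ENNReal.toReal_nonneg
          have hc2 : c = ENNReal.ofReal ((μ F).toReal⁻¹ * (I₀ + ε * vb D)) := by
            rw [hc, ← ENNReal.ofReal_mul hε, ← ENNReal.ofReal_add hI₀ (mul_nonneg hε hvb),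
              ENNReal.ofReal_mul (inv_nonneg.2 hv.le), ENNReal.ofReal_inv_of_pos hv,
              ENNReal.ofReal_toReal hL.fin.ne]
          rw [hc2, ← ENNReal.ofReal_mul (by push_cast; nlinarith [Nat.cast_nonneg (α := ℝ) M])]
          congr 1
          push_cast
          field_simp
          ring

end Pool.Agent.helper21.WB.NN
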